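import Mathlib
import Pool.Agent.R244.RBDef
import Pool.Agent.R244.RBBase
import Pool.Agent.R244.RBSq
import Pool.Agent.R244.RBGeomSq

/-!
# The boundary of a square admits an exponential Riesz basis

For every parallelogram in the plane (in particular for every square), the length measure on the
boundary of the parallelogram (the one-dimensional Hausdorff measure restricted to the boundary of
the convex hull of its vertices `P`, `P + u`, `P + v`, `P + u + v`) admits an exponential Riesz basis.

A frequency `l` is given by the pair `(⟨l,u⟩, ⟨l,v⟩)`. The Riesz basis consists of the four families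
`(n, n)`, `(n, n + 1/2)`, `(n + 1/2, -n)`, `(n + 1/2, -n - 1/2)`, `n ∈ ℤ`: its synthesis operator,
from `L²[0,1]⁴` to the space of the four edges, has an explicit bounded inverse.
-/

set_option autoImplicit false

namespace Pool.Agent.Results.MP_9e9244_an.Square

open MeasureTheory Set Complex
open scoped MeasureTheory
open Pool.Agent.R244.RB

/-- the values of `(⟨l, u⟩, ⟨l, v⟩)` -/
noncomputable def fr (i : Fin 4 × ℤ) : ℝ × ℝ :=
  (![((i.2 : ℝ), (i.2 : ℝ)), ((i.2 : ℝ), (i.2 : ℝ) + 1 / 2), ((i.2 : ℝ) + 1 / 2, -(i.2 : ℝ)),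
    ((i.2 : ℝ) + 1 / 2, -(i.2 : ℝ) - 1 / 2)] : Fin 4 → ℝ × ℝ) i.1

lemma fr0 (n : ℤ) : fr ((0 : Fin 4), n) = ((n : ℝ), (n : ℝ)) := rfl
lemma fr1 (n : ℤ) : fr ((1 : Fin 4), n) = ((n : ℝ), (n : ℝ) + 1 / 2) := rfl
lemma fr2 (n : ℤ) : fr ((2 : Fin 4), n) = ((n : ℝ) + 1 / 2, -(n : ℝ)) := rfl
lemma fr3 (n : ℤ) : fr ((3 : Fin 4), n) = ((n : ℝ) + 1 / 2, -(n : ℝ) - 1 / 2) := rfl

lemma fr_inj : Function.Injective fr := by
  rintro ⟨k, n⟩ ⟨k', n'⟩ h
  have hpar : ∀ a b : ℤ, (a : ℝ) ≠ (b : ℝ) + 1 / 2 := by
    intro a b hab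
    have h1 : ((2 * a : ℤ) : ℝ) = ((2 * b + 1 : ℤ) : ℝ) := by
      push_cast
      linarith
    have h2 : 2 * a = 2 * b + 1 := by exact_mod_cast h1
    omega
  have hk4 : k = 0 ∨ k = 1 ∨ k = 2 ∨ k = 3 := by fin_cases k <;> simp
  have hk4' : k' = 0 ∨ k' = 1 ∨ k' = 2 ∨ k' = 3 := by fin_cases k' <;> simp
  rcases hk4 with rfl | rfl | rfl | rfl <;> rcases hk4' with rfl | rfl | rfl | rfl <;>
    simp only [fr0, fr1, fr2, fr3, Prod.mk.injEq] at h
  · rw [show n = n' by exact_mod_cast h.1]
  · exact absurd h.2 (hpar n n')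
  · exact absurd h.1 (hpar n n')
  · exact absurd h.1 (hpar n n')
  · exact absurd h.2.symm (hpar n' n)
  · rw [show n = n' by exact_mod_cast h.1]
  · exact absurd h.1 (hpar n n')
  · exact absurd h.1 (hpar n n')
  · exact absurd h.1.symm (hpar n' n)
  · exact absurd h.1.symm (hpar n' n)
  · have : (n : ℝ) = n' := by linarith [h.1]
    rw [show n = n' by exact_mod_cast this]
  · exact absurd (by push_cast; linarith [h.2]) (hpar n n')
  · exact absurd h.1.symm (hpar n' n)
  · exact absurd h.1.symm (hpar n' n)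
  · exact absurd (by push_cast; linarith [h.2]) (hpar n' n)
  · have : (n : ℝ) = n' := by linarith [h.1]
    rw [show n = n' by exact_mod_cast this]

/-- **The length measure on the boundary of every parallelogram (in particular of every square)
admits an exponential Riesz basis.** -/
theorem result (P u v : EuclideanSpace ℝ (Fin 2)) (h : LinearIndependent ℝ ![u, v]) :
    ∃ L : Set (EuclideanSpace ℝ (Fin 2)), IsExpRieszBasis
      ((μH[1] : Measure (EuclideanSpace ℝ (Fin 2))).restrict
        (frontier (convexHull ℝ {P, P + u, P + v, P + (u + v)}))) L := by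
  obtain ⟨d, hd⟩ := exists_dual h
  refine ⟨Set.range fun i : Fin 4 × ℤ => d (fr i), ?_⟩
  have hu0 : u ≠ 0 := by
    have := h.ne_zero 0
    simpa using this
  have hv0 : v ≠ 0 := by
    have := h.ne_zero 1
    simpa using this
  refine riesz_of_synth (m := 4) (r := 4) _ ?_ _ ?_ _ (sq_measure P u v h) Sq
    (fun F hF j => Sq_L2 hF j) (1 / 4) 16 (by norm_num) ?_
    (fun F hF => Sq_upper hF) ?_ (fun i => d (fr i)) ?_ (fun i => ex (d (fr i)) P)
    (fun i => ex_norm _ _) ?_
  · intro j
    have hj4 : j = 0 ∨ j = 1 ∨ j = 2 ∨ j = 3 := by fin_cases j <;> simp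
    rcases hj4 with rfl | rfl | rfl | rfl
    · change Continuous fun s : ℝ => P + s • u
      fun_prop
    · change Continuous fun s : ℝ => P + (v + s • u)
      fun_prop
    · change Continuous fun s : ℝ => P + s • v
      fun_prop
    · change Continuous fun s : ℝ => P + (u + s • v)
      fun_prop
  · intro j
    have hj4 : j = 0 ∨ j = 1 ∨ j = 2 ∨ j = 3 := by fin_cases j <;> simp
    rcases hj4 with rfl | rfl | rfl | rfl
    · exact norm_pos_iff.mpr hu0
    · exact norm_pos_iff.mpr hu0
    · exact norm_pos_iff.mpr hv0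
    · exact norm_pos_iff.mpr hv0
  · intro F hF
    have h1 := SqInv_N (Sq_L2 hF)
    rw [SqInv_Sq] at h1
    linarith
  · intro f hf ε hε
    refine ⟨SqInv f, SqInv_L2 hf, ?_⟩
    rw [Sq_SqInv]
    have : ∀ j : Fin 4, N (f j - f j) = 0 := by
      intro j
      rw [sub_self]
      simp [N]
    simp only [this]
    simpa using hε
  · intro i j hij
    apply fr_inj
    have h1 := hd (fr i)
    have h2 := hd (fr j)
    simp only at hij
    rw [hij] at h1
    exact Prod.ext (h1.1.symm.trans h2.1) (h1.2.symm.trans h2.2)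
  · rintro ⟨k, n⟩ j s hs
    have hj4 : j = 0 ∨ j = 1 ∨ j = 2 ∨ j = 3 := by fin_cases j <;> simp
    have hk4 : k = 0 ∨ k = 1 ∨ k = 2 ∨ k = 3 := by fin_cases k <;> simp
    obtain ⟨hu, hv⟩ := hd (fr (k, n))
    have gen : ∀ (Y : EuclideanSpace ℝ (Fin 2)) (a b : ℝ),
        Y = a • u + b • v → ex (d (fr (k, n))) (P + Y) =
          ex (d (fr (k, n))) P * Ee (a * (fr (k, n)).1 + b * (fr (k, n)).2) := by
      intro Y a b hY
      have h5 : inner ℝ (d (fr (k, n))) Y = a * (fr (k, n)).1 + b * (fr (k, n)).2 := by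
        rw [hY, inner_add_right, inner_smul_right, inner_smul_right, hu, hv]
      unfold ex Ee
      rw [← Complex.exp_add, inner_add_right, h5]
      congr 1
      push_cast
      ring
    -- the values of the synthesis operator
    have s0 : ∀ F : Fin 4 → ℝ → ℂ, Sq F 0 s =
      F 0 s + F 1 s + Ee (s / 2) * F 2 s + Ee (s / 2) * F 3 s := fun F => rfl
    have s1 : ∀ F : Fin 4 → ℝ → ℂ, Sq F 1 s =
      F 0 s + -F 1 s + Ee (s / 2) * F 2 s + -Ee (s / 2) * F 3 s := fun F => rfl
    have s2 : ∀ F : Fin 4 → ℝ → ℂ, Sq F 2 s =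
      F 0 s + Ee (s / 2) * F 1 s + F 2 (1 - s) + Ee (-s / 2) * F 3 (1 - s) := fun F => rfl
    have s3 : ∀ F : Fin 4 → ℝ → ℂ, Sq F 3 s =
      F 0 s + Ee (s / 2) * F 1 s + -F 2 (1 - s) + -Ee (-s / 2) * F 3 (1 - s) := fun F => rfl
    have p01 : (0 : Fin 4) ≠ 1 := by decide
    have p02 : (0 : Fin 4) ≠ 2 := by decide
    have p03 : (0 : Fin 4) ≠ 3 := by decide
    have p12 : (1 : Fin 4) ≠ 2 := by decide
    have p13 : (1 : Fin 4) ≠ 3 := by decide
    have p23 : (2 : Fin 4) ≠ 3 := by decide
    rcases hj4 with rfl | rfl | rfl | rfl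
    · change ex (d (fr (k, n))) (P + s • u) = ex (d (fr (k, n))) P * Sq _ 0 s
      rw [gen (s • u) s 0 (by simp), s0]
      congr 1
      rcases hk4 with rfl | rfl | rfl | rfl
      · rw [fr0]
        simp only [Pi.single_eq_same, Pi.single_eq_of_ne p01.symm, Pi.single_eq_of_ne p02.symm,
          Pi.single_eq_of_ne p03.symm, Pi.zero_apply, en_eq_Ee, mul_zero, add_zero, zero_mul]
        congr 1
        ring
      · rw [fr1]
        simp only [Pi.single_eq_same, Pi.single_eq_of_ne p01, Pi.single_eq_of_ne p12.symm,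
          Pi.single_eq_of_ne p13.symm, Pi.zero_apply, en_eq_Ee, mul_zero, add_zero, zero_add,
          zero_mul]
        congr 1
        ring
      · rw [fr2]
        simp only [Pi.single_eq_same, Pi.single_eq_of_ne p02, Pi.single_eq_of_ne p12,
          Pi.single_eq_of_ne p23.symm, Pi.zero_apply, en_eq_Ee, mul_zero, add_zero, zero_add,
          zero_mul]
        rw [← Ee_add]
        congr 1
        ring
      · rw [fr3]
        simp only [Pi.single_eq_same, Pi.single_eq_of_ne p03, Pi.single_eq_of_ne p13,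
          Pi.single_eq_of_ne p23, Pi.zero_apply, en_eq_Ee, mul_zero, add_zero, zero_add, zero_mul]
        rw [← Ee_add]
        congr 1
        ring
    · change ex (d (fr (k, n))) (P + (v + s • u)) = ex (d (fr (k, n))) P * Sq _ 1 s
      rw [gen (v + s • u) s 1 (by module), s1]
      congr 1
      rcases hk4 with rfl | rfl | rfl | rfl
      · rw [fr0]
        simp only [Pi.single_eq_same, Pi.single_eq_of_ne p01.symm, Pi.single_eq_of_ne p02.symm,
          Pi.single_eq_of_ne p03.symm, Pi.zero_apply, en_eq_Ee, mul_zero, add_zero, neg_zero]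
        rw [← Ee_add_int ((n : ℝ) * s) n]
        congr 1
        ring
      · rw [fr1]
        simp only [Pi.single_eq_same, Pi.single_eq_of_ne p01, Pi.single_eq_of_ne p12.symm,
          Pi.single_eq_of_ne p13.symm, Pi.zero_apply, en_eq_Ee, mul_zero, add_zero, zero_add]
        rw [show s * (n : ℝ) + 1 * ((n : ℝ) + 1 / 2) = (1 / 2 + n * s) + (n : ℤ) by ring,
          Ee_add_int, Ee_add, Ee_half]
        ring
      · rw [fr2]
        simp only [Pi.single_eq_same, Pi.single_eq_of_ne p02, Pi.single_eq_of_ne p12,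
          Pi.single_eq_of_ne p23.symm, Pi.zero_apply, en_eq_Ee, mul_zero, add_zero, zero_add,
          neg_zero]
        rw [← Ee_add, ← Ee_add_int (s / 2 + n * s) (-n)]
        congr 1
        push_cast
        ring
      · rw [fr3]
        simp only [Pi.single_eq_same, Pi.single_eq_of_ne p03, Pi.single_eq_of_ne p13,
          Pi.single_eq_of_ne p23, Pi.zero_apply, en_eq_Ee, mul_zero, add_zero, zero_add, neg_zero]
        rw [show s * ((n : ℝ) + 1 / 2) + 1 * (-(n : ℝ) - 1 / 2) =
          (1 / 2 + (s / 2 + n * s)) + ((-n - 1 : ℤ) : ℝ) by push_cast; ring,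
          Ee_add_int, Ee_add, Ee_add, Ee_half]
        ring
    · change ex (d (fr (k, n))) (P + s • v) = ex (d (fr (k, n))) P * Sq _ 2 s
      rw [gen (s • v) 0 s (by simp), s2]
      congr 1
      rcases hk4 with rfl | rfl | rfl | rfl
      · rw [fr0]
        simp only [Pi.single_eq_same, Pi.single_eq_of_ne p01.symm, Pi.single_eq_of_ne p02.symm,
          Pi.single_eq_of_ne p03.symm, Pi.zero_apply, en_eq_Ee, mul_zero, add_zero, zero_mul,
          zero_add]
        congr 1
        ring
      · rw [fr1]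
        simp only [Pi.single_eq_same, Pi.single_eq_of_ne p01, Pi.single_eq_of_ne p12.symm,
          Pi.single_eq_of_ne p13.symm, Pi.zero_apply, en_eq_Ee, mul_zero, add_zero, zero_add,
          zero_mul]
        rw [← Ee_add]
        congr 1
        ring
      · rw [fr2]
        simp only [Pi.single_eq_same, Pi.single_eq_of_ne p02, Pi.single_eq_of_ne p12,
          Pi.single_eq_of_ne p23.symm, Pi.zero_apply, en_eq_Ee, mul_zero, add_zero, zero_add,
          zero_mul]
        rw [← Ee_add_int (s * -(n : ℝ)) n]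
        congr 1
        ring
      · rw [fr3]
        simp only [Pi.single_eq_same, Pi.single_eq_of_ne p03, Pi.single_eq_of_ne p13,
          Pi.single_eq_of_ne p23, Pi.zero_apply, en_eq_Ee, mul_zero, add_zero, zero_add, zero_mul]
        rw [← Ee_add, ← Ee_add_int (s * (-(n : ℝ) - 1 / 2)) n]
        congr 1
        ring
    · change ex (d (fr (k, n))) (P + (u + s • v)) = ex (d (fr (k, n))) P * Sq _ 3 s
      rw [gen (u + s • v) 1 s (by module), s3]
      congr 1
      rcases hk4 with rfl | rfl | rfl | rfl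
      · rw [fr0]
        simp only [Pi.single_eq_same, Pi.single_eq_of_ne p01.symm, Pi.single_eq_of_ne p02.symm,
          Pi.single_eq_of_ne p03.symm, Pi.zero_apply, en_eq_Ee, mul_zero, add_zero, neg_zero]
        rw [← Ee_add_int ((n : ℝ) * s) n]
        congr 1
        ring
      · rw [fr1]
        simp only [Pi.single_eq_same, Pi.single_eq_of_ne p01, Pi.single_eq_of_ne p12.symm,
          Pi.single_eq_of_ne p13.symm, Pi.zero_apply, en_eq_Ee, mul_zero, add_zero, zero_add,
          neg_zero]
        rw [← Ee_add, ← Ee_add_int (s / 2 + n * s) n]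
        congr 1
        ring
      · rw [fr2]
        simp only [Pi.single_eq_same, Pi.single_eq_of_ne p02, Pi.single_eq_of_ne p12,
          Pi.single_eq_of_ne p23.symm, Pi.zero_apply, en_eq_Ee, mul_zero, add_zero, zero_add]
        rw [show 1 * ((n : ℝ) + 1 / 2) + s * -(n : ℝ) = 1 / 2 + (n * (1 - s)) by ring,
          Ee_add, Ee_half]
        ring
      · rw [fr3]
        simp only [Pi.single_eq_same, Pi.single_eq_of_ne p03, Pi.single_eq_of_ne p13,
          Pi.single_eq_of_ne p23, Pi.zero_apply, en_eq_Ee, mul_zero, add_zero, zero_add]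
        rw [show 1 * ((n : ℝ) + 1 / 2) + s * (-(n : ℝ) - 1 / 2) =
          1 / 2 + (-s / 2 + n * (1 - s)) by ring, Ee_add, Ee_add, Ee_half]
        ring

end Pool.Agent.Results.MP_9e9244_an.Square
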