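import Mathlib
import Pool.Agent.R244.RBDef
import Pool.Agent.R244.RBBase
import Pool.Agent.R244.RBTri
import Pool.Agent.R244.RBGeom

/-!
# The boundary of a triangle admits an exponential Riesz basis

For every triangle `ABC` in the plane, the length measure on the boundary of the triangle (the
one-dimensional Hausdorff measure restricted to the boundary of the convex hull of `A`, `B`, `C`)
admits an exponential Riesz basis.

Let `d₁ = B - A`, `d₂ = C - B`, `d₃ = A - C`. A frequency `l` is given by the triple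
`(⟨l,d₁⟩, ⟨l,d₂⟩, ⟨l,d₃⟩)` with zero sum. The Riesz basis consists of the three families
`n(-2,1,1)`, `n(1,-2,1) + (1/2,0,-1/2)`, `n(1,1,-2) + (1/2,-1/2,0)`, `n ∈ ℤ`. In suitable coordinates
its synthesis operator on `L²[0,1]³` is `(J - 1)(1 + K)`, where `J` is the all ones matrix and
`(KG)(s) = e(-s) (J/2 - 1) U(s) G({-2s})` with `U(s) = diag(-1,-1,1)` for `s ≤ 1/2` and
`U(s) = diag(-1,1,-1)` for `s > 1/2`; the operator `K` is a contraction by the factor `√3/2` for the
norm given by `8|g₁|² + 4|g₂+g₃|² + 3|g₂-g₃|²`.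
-/

set_option autoImplicit false

namespace Pool.Agent.Results.MP_9e9244_an.Triangle

open MeasureTheory Set Complex
open scoped MeasureTheory
open Pool.Agent.R244.RB

/-- `e(r)` -/
noncomputable def E (r : ℝ) : ℂ := cexp (2 * Real.pi * I * (r : ℝ))

lemma E_add (a b : ℝ) : E (a + b) = E a * E b := by
  unfold E
  rw [← Complex.exp_add]
  congr 1
  push_cast
  ring

lemma E_int (n : ℤ) : E n = 1 := by
  unfold E
  have := Complex.exp_int_mul_two_pi_mul_I n
  rw [← this]
  congr 1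
  push_cast
  ring

lemma E_half : E (1 / 2) = -1 := by
  unfold E
  have : (2 * Real.pi * I * ((1 / 2 : ℝ) : ℂ)) = Real.pi * I := by
    push_cast
    ring
  rw [this, Complex.exp_pi_mul_I]

lemma E_add_int (a : ℝ) (n : ℤ) : E (a + n) = E a := by rw [E_add, E_int, mul_one]

lemma en_eq (n : ℤ) (s : ℝ) : en n s = E (n * s) := rfl

/-- the point `{-2s}` -/
noncomputable def rho (s : ℝ) : ℝ := if s ≤ 1 / 2 then 1 - 2 * s else 2 - 2 * s

lemma en_rho (n : ℤ) (s : ℝ) : en n (rho s) = E (-2 * n * s) := by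
  rw [en_eq]
  unfold rho
  split_ifs
  · rw [← E_add_int (-2 * n * s) n]
    congr 1
    ring
  · rw [← E_add_int (-2 * n * s) (2 * n)]
    congr 1
    push_cast
    ring

lemma Sop0 (F : Fin 3 → ℝ → ℂ) (s : ℝ) :
    Sop F 0 s = F 0 (rho s) + E (s / 2) * (F 1 s + F 2 s) := by
  have h1 : cexp (2 * Real.pi * I * (s : ℝ)) = E (s / 2) * E (s / 2) := by
    rw [← E_add]
    unfold E
    congr 2
    push_cast
    ring
  have h2 : E (s / 2) * E (-s / 2) = 1 := by
    rw [← E_add, show s / 2 + -s / 2 = ((0 : ℤ) : ℝ) by push_cast; ring, E_int]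
  have h3 : cexp (2 * Real.pi * I * (s : ℝ)) * cexp (2 * Real.pi * I * (-s : ℝ)) = 1 := exp_cancel' s
  rw [Sop_apply]
  change -cexp (2 * Real.pi * I * (s : ℝ)) *
    ((-E (-s / 2) * F 1 s + Kop (Dop F) 1 s) + (-E (-s / 2) * F 2 s + Kop (Dop F) 2 s)) = _
  have hk : Kop (Dop F) 1 s + Kop (Dop F) 2 s =
      -(cexp (2 * Real.pi * I * (-s : ℝ)) * F 0 (rho s)) := by
    change cexp (2 * Real.pi * I * (-s : ℝ)) *
      (if s ≤ 1 / 2 then k0 (fun i => Dop F i (1 - 2 * s)) 1 else k1 (fun i => Dop F i (2 - 2 * s)) 1) +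
      cexp (2 * Real.pi * I * (-s : ℝ)) *
      (if s ≤ 1 / 2 then k0 (fun i => Dop F i (1 - 2 * s)) 2 else k1 (fun i => Dop F i (2 - 2 * s)) 2)
      = _
    unfold rho
    split_ifs
    · have : Dop F 0 (1 - 2 * s) = F 0 (1 - 2 * s) := rfl
      simp only [k0, Matrix.cons_val_zero, Matrix.cons_val_one, Matrix.cons_val]
      rw [this]
      ring
    · have : Dop F 0 (2 - 2 * s) = F 0 (2 - 2 * s) := rfl
      simp only [k1, Matrix.cons_val_zero, Matrix.cons_val_one, Matrix.cons_val]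
      rw [this]
      ring
  linear_combination (-cexp (2 * Real.pi * I * (s : ℝ))) * hk + (F 0 (rho s)) * h3 +
    (E (-s / 2) * (F 1 s + F 2 s)) * h1 + (E (s / 2) * (F 1 s + F 2 s)) * h2

lemma Dop_vals (F : Fin 3 → ℝ → ℂ) (y : ℝ) : Dop F 0 y = F 0 y ∧ Dop F 1 y = -E (-y / 2) * F 1 y ∧
    Dop F 2 y = -E (-y / 2) * F 2 y := ⟨rfl, rfl, rfl⟩

lemma phase0 (s : ℝ) : E (-s) * E (-(1 - 2 * s) / 2) = -1 := by
  rw [← E_add, show -s + -(1 - 2 * s) / 2 = 1 / 2 + ((-1 : ℤ) : ℝ) by push_cast; ring, E_add_int,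
    E_half]

lemma phase1 (s : ℝ) : E (-s) * E (-(2 - 2 * s) / 2) = 1 := by
  rw [← E_add, show -s + -(2 - 2 * s) / 2 = ((-1 : ℤ) : ℝ) by push_cast; ring, E_int]

lemma Sop1 (F : Fin 3 → ℝ → ℂ) (s : ℝ) :
    Sop F 1 s = F 0 s - F 1 (rho s) - E (-s / 2) * F 2 s := by
  rw [Sop_apply]
  change (Dop F 0 s + Kop (Dop F) 0 s) + (Dop F 2 s + Kop (Dop F) 2 s) = _
  have hk : Kop (Dop F) 0 s + Kop (Dop F) 2 s = -F 1 (rho s) := by
    change E (-s) *
      (if s ≤ 1 / 2 then k0 (fun i => Dop F i (1 - 2 * s)) 0 else k1 (fun i => Dop F i (2 - 2 * s)) 0) +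
      E (-s) *
      (if s ≤ 1 / 2 then k0 (fun i => Dop F i (1 - 2 * s)) 2 else k1 (fun i => Dop F i (2 - 2 * s)) 2)
      = _
    unfold rho
    split_ifs
    · simp only [k0, Matrix.cons_val_zero, Matrix.cons_val_one, Matrix.cons_val]
      rw [(Dop_vals F (1 - 2 * s)).1, (Dop_vals F (1 - 2 * s)).2.1, (Dop_vals F (1 - 2 * s)).2.2]
      linear_combination (F 1 (1 - 2 * s)) * phase0 s
    · simp only [k1, Matrix.cons_val_zero, Matrix.cons_val_one, Matrix.cons_val]
      rw [(Dop_vals F (2 - 2 * s)).1, (Dop_vals F (2 - 2 * s)).2.1, (Dop_vals F (2 - 2 * s)).2.2]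
      linear_combination (-F 1 (2 - 2 * s)) * phase1 s
  rw [(Dop_vals F s).1, (Dop_vals F s).2.2]
  linear_combination hk

lemma Sop2 (F : Fin 3 → ℝ → ℂ) (s : ℝ) :
    Sop F 2 s = F 0 s - E (-s / 2) * F 1 s + F 2 (rho s) := by
  rw [Sop_apply]
  change (Dop F 0 s + Kop (Dop F) 0 s) + (Dop F 1 s + Kop (Dop F) 1 s) = _
  have hk : Kop (Dop F) 0 s + Kop (Dop F) 1 s = F 2 (rho s) := by
    change E (-s) *
      (if s ≤ 1 / 2 then k0 (fun i => Dop F i (1 - 2 * s)) 0 else k1 (fun i => Dop F i (2 - 2 * s)) 0) +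
      E (-s) *
      (if s ≤ 1 / 2 then k0 (fun i => Dop F i (1 - 2 * s)) 1 else k1 (fun i => Dop F i (2 - 2 * s)) 1)
      = _
    unfold rho
    split_ifs
    · simp only [k0, Matrix.cons_val_zero, Matrix.cons_val_one, Matrix.cons_val]
      rw [(Dop_vals F (1 - 2 * s)).1, (Dop_vals F (1 - 2 * s)).2.1, (Dop_vals F (1 - 2 * s)).2.2]
      linear_combination (-F 2 (1 - 2 * s)) * phase0 s
    · simp only [k1, Matrix.cons_val_zero, Matrix.cons_val_one, Matrix.cons_val]
      rw [(Dop_vals F (2 - 2 * s)).1, (Dop_vals F (2 - 2 * s)).2.1, (Dop_vals F (2 - 2 * s)).2.2]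
      linear_combination (F 2 (2 - 2 * s)) * phase1 s
  rw [(Dop_vals F s).1, (Dop_vals F s).2.1]
  linear_combination hk

/-- the values of `(⟨l, B - A⟩, ⟨l, C - A⟩)` -/
noncomputable def fr (i : Fin 3 × ℤ) : ℝ × ℝ :=
  (![(-2 * (i.2 : ℝ), -(i.2 : ℝ)), ((i.2 : ℝ) + 1 / 2, -(i.2 : ℝ) + 1 / 2),
    ((i.2 : ℝ) + 1 / 2, 2 * (i.2 : ℝ))] : Fin 3 → ℝ × ℝ) i.1

lemma fr_inj : Function.Injective fr := by
  rintro ⟨k, n⟩ ⟨k', n'⟩ h
  have hpar : ∀ a b : ℤ, (a : ℝ) ≠ (b : ℝ) + 1 / 2 := by
    intro a b hab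
    have h1 : ((2 * a : ℤ) : ℝ) = ((2 * b + 1 : ℤ) : ℝ) := by
      push_cast
      linarith
    have h2 : 2 * a = 2 * b + 1 := by exact_mod_cast h1
    omega
  have e0 : ∀ n : ℤ, fr ((0 : Fin 3), n) = (-2 * (n : ℝ), -(n : ℝ)) := fun n => rfl
  have e1 : ∀ n : ℤ, fr ((1 : Fin 3), n) = ((n : ℝ) + 1 / 2, -(n : ℝ) + 1 / 2) := fun n => rfl
  have e2 : ∀ n : ℤ, fr ((2 : Fin 3), n) = ((n : ℝ) + 1 / 2, 2 * (n : ℝ)) := fun n => rfl
  have hk3 : k = 0 ∨ k = 1 ∨ k = 2 := by fin_cases k <;> simp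
  have hk3' : k' = 0 ∨ k' = 1 ∨ k' = 2 := by fin_cases k' <;> simp
  rcases hk3 with rfl | rfl | rfl <;> rcases hk3' with rfl | rfl | rfl <;>
    simp only [e0, e1, e2, Prod.mk.injEq] at h
  · have : (n : ℝ) = n' := by linarith [h.1]
    rw [show n = n' by exact_mod_cast this]
  · exact absurd (by push_cast; linarith [h.1]) (hpar (-2 * n) n')
  · exact absurd (by push_cast; linarith [h.1]) (hpar (-2 * n) n')
  · exact absurd (by push_cast; linarith [h.1]) (hpar (-2 * n') n)
  · have : (n : ℝ) = n' := by linarith [h.1]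
    rw [show n = n' by exact_mod_cast this]
  · exact absurd (by push_cast; linarith [h.2]) (hpar (2 * n') (-n))
  · exact absurd (by push_cast; linarith [h.1]) (hpar (-2 * n') n)
  · exact absurd (by push_cast; linarith [h.2]) (hpar (2 * n) (-n'))
  · have : (n : ℝ) = n' := by linarith [h.1]
    rw [show n = n' by exact_mod_cast this]

/-- **The length measure on the boundary of every triangle admits an exponential Riesz basis.** -/
theorem result (A B C : EuclideanSpace ℝ (Fin 2)) (h : AffineIndependent ℝ ![A, B, C]) :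
    ∃ L : Set (EuclideanSpace ℝ (Fin 2)), IsExpRieszBasis
      ((μH[1] : Measure (EuclideanSpace ℝ (Fin 2))).restrict (frontier (convexHull ℝ {A, B, C})))
      L := by
  have hlin : LinearIndependent ℝ ![B - A, C - A] := by
    have h1 := (affineIndependent_iff_linearIndependent_vsub ℝ _ (0 : Fin 3)).mp h
    have h2 := h1.comp (fun i : Fin 2 => (⟨i.succ, Fin.succ_ne_zero i⟩ : {x : Fin 3 // x ≠ 0}))
      (by
        intro i j hij
        simpa using hij)
    have h3 : ![B - A, C - A] = (fun i : {x : Fin 3 // x ≠ 0} => ![A, B, C] i -ᵥ ![A, B, C] 0) ∘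
        (fun i : Fin 2 => (⟨i.succ, Fin.succ_ne_zero i⟩ : {x : Fin 3 // x ≠ 0})) := by
      ext i : 1
      fin_cases i <;> rfl
    rw [h3]
    exact h2
  obtain ⟨d, hd⟩ := exists_dual hlin
  refine ⟨Set.range fun i : Fin 3 × ℤ => d (fr i), ?_⟩
  have hAB : A ≠ B := by
    intro e
    have := h.injective.ne (show (0 : Fin 3) ≠ 1 by decide)
    exact this e
  have hBC : B ≠ C := by
    intro e
    have := h.injective.ne (show (1 : Fin 3) ≠ 2 by decide)
    exact this e
  have hCA : C ≠ A := by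
    intro e
    have := h.injective.ne (show (2 : Fin 3) ≠ 0 by decide)
    exact this e
  refine riesz_of_synth (m := 3) (r := 3) _ ?_ _ ?_ _ (tri_measure A B C hlin) Sop
    (fun F hF j => Sop_L2 hF j) (1 / 75) 20 (by norm_num) (fun F hF => Sop_lower hF)
    (fun F hF => Sop_upper hF) Sop_surj (fun i => d (fr i)) ?_ (fun i => ex (d (fr i)) A)
    (fun i => ex_norm _ _) ?_
  · intro j
    fin_cases j
    · change Continuous fun s : ℝ => A + s • (B - A)
      fun_prop
    · change Continuous fun s : ℝ => B + s • (C - B)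
      fun_prop
    · change Continuous fun s : ℝ => C + s • (A - C)
      fun_prop
  · intro j
    fin_cases j
    · exact dist_pos.mpr hAB
    · exact dist_pos.mpr hBC
    · exact dist_pos.mpr hCA
  · intro i j hij
    apply fr_inj
    have h1 := hd (fr i)
    have h2 := hd (fr j)
    simp only at hij
    rw [hij] at h1
    exact Prod.ext (h1.1.symm.trans h2.1) (h1.2.symm.trans h2.2)
  · rintro ⟨k, n⟩ j s hs
    -- the exponential along an edge
    have key : ∀ (l X Y : EuclideanSpace ℝ (Fin 2)) (x : ℝ), X = A + Y → inner ℝ l Y = x →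
        ex l X = ex l A * E x := by
      intro l X Y x hX hx
      rw [hX]
      unfold ex E
      rw [← Complex.exp_add, inner_add_right, hx]
      congr 1
      push_cast
      ring
    have hj3 : j = 0 ∨ j = 1 ∨ j = 2 := by fin_cases j <;> simp
    have hk3 : k = 0 ∨ k = 1 ∨ k = 2 := by fin_cases k <;> simp
    obtain ⟨hu, hv⟩ := hd (fr (k, n))
    have gen : ∀ (X Y : EuclideanSpace ℝ (Fin 2)) (a b : ℝ), X = A + Y →
        Y = a • (B - A) + b • (C - A) → ex (d (fr (k, n))) X =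
          ex (d (fr (k, n))) A * E (a * (fr (k, n)).1 + b * (fr (k, n)).2) := by
      intro X Y a b hX hY
      apply key _ X Y _ hX
      rw [hY, inner_add_right, inner_smul_right, inner_smul_right, hu, hv]
    rcases hj3 with rfl | rfl | rfl
    · change ex (d (fr (k, n))) (A + s • (B - A)) = ex (d (fr (k, n))) A * Sop _ 0 s
      rw [gen (A + s • (B - A)) (s • (B - A)) s 0 rfl (by simp), Sop0]
      congr 1
      rcases hk3 with rfl | rfl | rfl
      · have : fr ((0 : Fin 3), n) = (-2 * (n : ℝ), -(n : ℝ)) := rfl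
        rw [this]
        simp only [Pi.single_eq_same, Pi.single_eq_of_ne (show (1 : Fin 3) ≠ 0 by decide),
          Pi.single_eq_of_ne (show (2 : Fin 3) ≠ 0 by decide), Pi.zero_apply, en_rho]
        rw [add_zero, mul_zero, add_zero]
        congr 1
        ring
      · have : fr ((1 : Fin 3), n) = ((n : ℝ) + 1 / 2, -(n : ℝ) + 1 / 2) := rfl
        rw [this]
        simp only [Pi.single_eq_same, Pi.single_eq_of_ne (show (0 : Fin 3) ≠ 1 by decide),
          Pi.single_eq_of_ne (show (2 : Fin 3) ≠ 1 by decide), Pi.zero_apply, en_eq]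
        rw [zero_add, add_zero, ← E_add]
        congr 1
        ring
      · have : fr ((2 : Fin 3), n) = ((n : ℝ) + 1 / 2, 2 * (n : ℝ)) := rfl
        rw [this]
        simp only [Pi.single_eq_same, Pi.single_eq_of_ne (show (0 : Fin 3) ≠ 2 by decide),
          Pi.single_eq_of_ne (show (1 : Fin 3) ≠ 2 by decide), Pi.zero_apply, en_eq]
        rw [zero_add, zero_add, ← E_add]
        congr 1
        ring
    · change ex (d (fr (k, n))) (B + s • (C - B)) = ex (d (fr (k, n))) A * Sop _ 1 s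
      rw [gen (B + s • (C - B)) ((1 - s) • (B - A) + s • (C - A)) (1 - s) s (by module) rfl, Sop1]
      congr 1
      rcases hk3 with rfl | rfl | rfl
      · have : fr ((0 : Fin 3), n) = (-2 * (n : ℝ), -(n : ℝ)) := rfl
        rw [this]
        simp only [Pi.single_eq_same, Pi.single_eq_of_ne (show (1 : Fin 3) ≠ 0 by decide),
          Pi.single_eq_of_ne (show (2 : Fin 3) ≠ 0 by decide), Pi.zero_apply, en_eq]
        rw [mul_zero, sub_zero, sub_zero, ← E_add_int (n * s) (-2 * n)]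
        congr 1
        push_cast
        ring
      · have : fr ((1 : Fin 3), n) = ((n : ℝ) + 1 / 2, -(n : ℝ) + 1 / 2) := rfl
        rw [this]
        simp only [Pi.single_eq_same, Pi.single_eq_of_ne (show (0 : Fin 3) ≠ 1 by decide),
          Pi.single_eq_of_ne (show (2 : Fin 3) ≠ 1 by decide), Pi.zero_apply, en_rho]
        have e : (1 - s) * ((n : ℝ) + 1 / 2) + s * (-(n : ℝ) + 1 / 2) =
            (1 / 2 + (-2 * n * s)) + (n : ℤ) := by ring
        rw [e, E_add_int, E_add, E_half]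
        ring
      · have : fr ((2 : Fin 3), n) = ((n : ℝ) + 1 / 2, 2 * (n : ℝ)) := rfl
        rw [this]
        simp only [Pi.single_eq_same, Pi.single_eq_of_ne (show (0 : Fin 3) ≠ 2 by decide),
          Pi.single_eq_of_ne (show (1 : Fin 3) ≠ 2 by decide), Pi.zero_apply, en_eq]
        have e : (1 - s) * ((n : ℝ) + 1 / 2) + s * (2 * (n : ℝ)) =
            (1 / 2 + (-s / 2 + n * s)) + (n : ℤ) := by ring
        rw [e, E_add_int, E_add, E_add, E_half]
        ring
    · change ex (d (fr (k, n))) (C + s • (A - C)) = ex (d (fr (k, n))) A * Sop _ 2 s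
      rw [gen (C + s • (A - C)) ((1 - s) • (C - A)) 0 (1 - s) (by module) (by simp), Sop2]
      congr 1
      rcases hk3 with rfl | rfl | rfl
      · have : fr ((0 : Fin 3), n) = (-2 * (n : ℝ), -(n : ℝ)) := rfl
        rw [this]
        simp only [Pi.single_eq_same, Pi.single_eq_of_ne (show (1 : Fin 3) ≠ 0 by decide),
          Pi.single_eq_of_ne (show (2 : Fin 3) ≠ 0 by decide), Pi.zero_apply, en_eq]
        rw [mul_zero, sub_zero, add_zero, ← E_add_int (n * s) (-n)]
        congr 1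
        push_cast
        ring
      · have : fr ((1 : Fin 3), n) = ((n : ℝ) + 1 / 2, -(n : ℝ) + 1 / 2) := rfl
        rw [this]
        simp only [Pi.single_eq_same, Pi.single_eq_of_ne (show (0 : Fin 3) ≠ 1 by decide),
          Pi.single_eq_of_ne (show (2 : Fin 3) ≠ 1 by decide), Pi.zero_apply, en_eq]
        have e : 0 * ((n : ℝ) + 1 / 2) + (1 - s) * (-(n : ℝ) + 1 / 2) =
            (1 / 2 + (-s / 2 + n * s)) + ((-n : ℤ) : ℝ) := by push_cast; ring
        rw [e, E_add_int, E_add, E_add, E_half]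
        ring
      · have : fr ((2 : Fin 3), n) = ((n : ℝ) + 1 / 2, 2 * (n : ℝ)) := rfl
        rw [this]
        simp only [Pi.single_eq_same, Pi.single_eq_of_ne (show (0 : Fin 3) ≠ 2 by decide),
          Pi.single_eq_of_ne (show (1 : Fin 3) ≠ 2 by decide), Pi.zero_apply, en_rho]
        have e : 0 * ((n : ℝ) + 1 / 2) + (1 - s) * (2 * (n : ℝ)) =
            (-2 * n * s) + ((2 * n : ℤ) : ℝ) := by push_cast; ring
        rw [e, E_add_int]
        ring

end Pool.Agent.Results.MP_9e9244_an.Triangle
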